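import Pool.Agent.Run7.h465.UP.Iface

/-!
# Piece KAPPA: the character of the top factor of an initial segment of a `p`-order
-/

set_option autoImplicit false

namespace Run7.h270.UP

open Run7.h465.UP

section
variable {p : ℕ} {B : Type} [Group B] (o : POrd p B)

lemma one_le' (x : B) : o.le 1 x := by
  have h := o.mul x x⁻¹ x (o.refl x) (o.inv x x (o.refl x))
  rwa [mul_inv_cancel] at h

lemma conj_le (g x : B) : o.le (g * x * g⁻¹) x := by
  by_cases hx : x = 1
  · subst hx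
    have e : g * 1 * g⁻¹ = (1 : B) := by group
    rw [e]
    exact o.refl 1
  · have h1 : o.le (g * x * g⁻¹ * x⁻¹) x :=
      (o.total x (g * x * g⁻¹ * x⁻¹)).resolve_left (o.comm g x hx)
    have h2 := o.mul _ _ _ h1 (o.refl x)
    have e : g * x * g⁻¹ * x⁻¹ * x = g * x * g⁻¹ := by group
    rwa [e] at h2

/-- The elements strictly below `y`. -/
def low (y : B) (hy : y ≠ 1) : Subgroup B where
  carrier := {x | ¬ o.le y x}
  mul_mem' := by
    intro a b ha hb h
    rcases o.total a b with h1 | h1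
    · exact hb (o.trans _ _ _ h (o.mul _ _ _ h1 (o.refl b)))
    · exact ha (o.trans _ _ _ h (o.mul _ _ _ (o.refl a) h1))
  one_mem' := fun h => hy (o.bot y h)
  inv_mem' := by
    intro a ha h
    exact ha (o.trans _ _ _ h (o.inv a a (o.refl a)))

lemma mem_low {y : B} {hy : y ≠ 1} {x : B} : x ∈ low o y hy ↔ ¬ o.le y x := Iff.rfl

lemma conj_mem_low {y : B} {hy : y ≠ 1} {x : B} (hx : x ∈ low o y hy) (g : B) :
    g * x * g⁻¹ ∈ low o y hy := by
  rw [mem_low] at hx ⊢
  exact fun h => hx (o.trans _ _ _ h (conj_le o g x))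

lemma comm_mem_low {y : B} {hy : y ≠ 1} {x : B} (hx : o.le x y) (g : B) :
    g * x * g⁻¹ * x⁻¹ ∈ low o y hy := by
  rw [mem_low]
  intro h
  by_cases h1 : x = 1
  · subst h1
    have e : g * 1 * g⁻¹ * (1 : B)⁻¹ = 1 := by group
    rw [e] at h
    exact hy (o.bot y h)
  · exact o.comm g x h1 (o.trans _ _ _ hx h)

lemma zpow_mem_low [Fact p.Prime] {y : B} {hy : y ≠ 1} {k : ℤ} :
    y ^ k ∈ low o y hy ↔ (p : ℤ) ∣ k := by
  have hp : y ^ p ∈ low o y hy := o.pow y hy
  constructor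
  · intro h
    by_contra hk
    have hpr : Prime (p : ℤ) := Nat.prime_iff_prime_int.mp (Fact.out : p.Prime)
    obtain ⟨a, b, hab⟩ := (hpr.irreducible.coprime_iff_not_dvd).mpr hk
    have h1 : (y ^ p) ^ a * (y ^ k) ^ b = y := by
      rw [← zpow_natCast, ← zpow_mul, ← zpow_mul, ← zpow_add]
      rw [show (p : ℤ) * a + k * b = 1 by rw [← hab]; ring, zpow_one]
    have h2 : (y ^ p) ^ a * (y ^ k) ^ b ∈ low o y hy :=
      mul_mem (zpow_mem hp a) (zpow_mem h b)
    have h3 : ¬ o.le y ((y ^ p) ^ a * (y ^ k) ^ b) := h2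
    rw [h1] at h3
    exact h3 (o.refl y)
  · rintro ⟨m, rfl⟩
    rw [zpow_mul, zpow_natCast]
    exact zpow_mem hp m

lemma uniq [Fact p.Prime] {y : B} {hy : y ≠ 1} {x : B} {k l : ℤ}
    (hk : x * (y ^ k)⁻¹ ∈ low o y hy) (hl : x * (y ^ l)⁻¹ ∈ low o y hy) :
    (k : ZMod p) = (l : ZMod p) := by
  have h : (x * (y ^ k)⁻¹)⁻¹ * (x * (y ^ l)⁻¹) ∈ low o y hy := mul_mem (inv_mem hk) hl
  have e : (x * (y ^ k)⁻¹)⁻¹ * (x * (y ^ l)⁻¹) = y ^ (k - l) := by
    rw [zpow_sub]; group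
  rw [e, zpow_mem_low] at h
  exact ((ZMod.intCast_eq_intCast_iff_dvd_sub l k p).mpr h).symm

lemma kappa_ex [Fact p.Prime] {y : B} (hy : y ≠ 1) (x : B) :
    ∃ k : ℤ, o.le x y → x * (y ^ k)⁻¹ ∈ low o y hy := by
  by_cases h : o.le x y
  · obtain ⟨k, _, hk⟩ := o.cyc x y hy h
    refine ⟨k, fun _ => ?_⟩
    rw [zpow_natCast]
    exact hk
  · exact ⟨0, fun h' => absurd h' h⟩

end

theorem t_KAPPA : S_KAPPA := by
  intro p _ B _ o y hy
  choose k hk using kappa_ex o hy
  refine ⟨fun x => (k x : ZMod p), ?_, ?_, ?_, ?_⟩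
  · intro x x' hx hx'
    have h1 := hk x hx
    have h2 := hk x' hx'
    have h3 := hk (x * x') (o.mul _ _ _ hx hx')
    have h4 : (x * x') * (y ^ (k x + k x'))⁻¹ ∈ low o y hy := by
      have e : (x * x') * (y ^ (k x + k x'))⁻¹
          = (x * (y ^ (k x))⁻¹) * ((y ^ (k x)) * (x' * (y ^ (k x'))⁻¹) * (y ^ (k x))⁻¹) := by
        rw [zpow_add]; group
      rw [e]
      exact mul_mem h1 (conj_mem_low o h2 _)
    show (k (x * x') : ZMod p) = (k x : ZMod p) + (k x' : ZMod p)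
    rw [uniq o h3 h4, Int.cast_add]
  · intro g x hx
    have h1 := hk x hx
    have h3 := hk (g * x * g⁻¹) (o.trans _ _ _ (conj_le o g x) hx)
    have h4 : (g * x * g⁻¹) * (y ^ (k x))⁻¹ ∈ low o y hy := by
      have e : (g * x * g⁻¹) * (y ^ (k x))⁻¹
          = (g * x * g⁻¹ * x⁻¹) * (x * (y ^ (k x))⁻¹) := by group
      rw [e]
      exact mul_mem (comm_mem_low o hx g) h1
    exact uniq o h3 h4
  · intro x hx
    have h1 := hk x hx
    constructor
    · intro h0
      have hd : (p : ℤ) ∣ k x := (ZMod.intCast_zmod_eq_zero_iff_dvd (k x) p).mp h0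
      have h2 : y ^ (k x) ∈ low o y hy := (zpow_mem_low o).mpr hd
      have h3 : (x * (y ^ (k x))⁻¹) * y ^ (k x) ∈ low o y hy := mul_mem h1 h2
      have e : (x * (y ^ (k x))⁻¹) * y ^ (k x) = x := by group
      rw [e] at h3
      exact h3
    · intro h0
      have h2 : x * (y ^ (0 : ℤ))⁻¹ ∈ low o y hy := by
        rw [zpow_zero, inv_one, mul_one]
        exact h0
      have h3 := uniq o h1 h2
      rw [Int.cast_zero] at h3
      exact h3
  · have h1 := hk y (o.refl y)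
    have h2 : y * (y ^ (1 : ℤ))⁻¹ ∈ low o y hy := by
      rw [zpow_one, mul_inv_cancel]
      exact one_mem _
    have h3 := uniq o h1 h2
    rw [Int.cast_one] at h3
    exact h3

end Run7.h270.UP
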