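import Pool.Agent.Run7.h465.UP.Iface

/-!
# Piece RPROD: restricted direct products
-/

set_option autoImplicit false

namespace Run7.h270.UP

open Run7.h465.UP

/-- The families with finite support. -/
def fsup (V : Nat.Primes → Type) [∀ p, Group (V p)] : Subgroup (∀ p, V p) where
  carrier := {v | {p | v p ≠ 1}.Finite}
  mul_mem' := by
    intro a b ha hb
    refine (ha.union hb).subset ?_
    intro p hp
    by_contra h
    simp only [Set.mem_union, Set.mem_ofPred_eq, not_or, not_not] at h
    exact hp (by rw [Pi.mul_apply, h.1, h.2, mul_one])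
  one_mem' := by
    show {p | (1 : ∀ p, V p) p ≠ 1}.Finite
    simp
  inv_mem' := by
    intro a ha
    refine Set.Finite.subset ha ?_
    intro p hp h
    exact hp (by rw [Pi.inv_apply, h, inv_one])

lemma fsup_countable (V : Nat.Primes → Type) [∀ p, Group (V p)] (hV : ∀ p, Countable (V p)) :
    Countable (fsup V) := by
  classical
  let F : (Σ s : Finset Nat.Primes, (∀ p : s, V p)) → (∀ p, V p) :=
    fun x p => if h : p ∈ x.1 then x.2 ⟨p, h⟩ else 1
  have h1 : (Set.range F).Countable := Set.countable_range F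
  have h2 : ((fsup V : Subgroup (∀ p, V p)) : Set (∀ p, V p)) ⊆ Set.range F := by
    intro v hv
    refine ⟨⟨Set.Finite.toFinset hv, fun p => v p⟩, ?_⟩
    funext p
    by_cases h : v p = 1
    · simp [F, h]
    · simp [F, h]
  exact (h1.mono h2).to_subtype

lemma fsup_tors (V : Nat.Primes → Type) [∀ p, Group (V p)]
    (hV : ∀ p : Nat.Primes, IsPGroup p (V p)) (g : fsup V) : IsOfFinOrder g := by
  classical
  have ht : ∀ p, 0 < orderOf (g.1 p) := by
    intro p
    obtain ⟨k, hk⟩ := hV p (g.1 p)
    exact orderOf_pos_iff.mpr (isOfFinOrder_iff_pow_eq_one.mpr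
      ⟨p.1 ^ k, pow_pos p.2.pos k, hk⟩)
  have hs : {p | g.1 p ≠ 1}.Finite := g.2
  rw [isOfFinOrder_iff_pow_eq_one]
  refine ⟨∏ p ∈ hs.toFinset, orderOf (g.1 p), Finset.prod_pos fun p _ => ht p, ?_⟩
  apply Subtype.ext
  funext p
  show (g.1 p) ^ (∏ p ∈ hs.toFinset, orderOf (g.1 p)) = 1
  by_cases h : g.1 p = 1
  · rw [h, one_pow]
  · exact orderOf_dvd_iff_pow_eq_one.mp
      (Finset.dvd_prod_of_mem _ (by simpa using h))

lemma fsup_nilp (V : Nat.Primes → Type) [∀ p, Group (V p)]
    (hV : ∀ p : Nat.Primes, IsPGroup p (V p)) (hL : ∀ p, LocFin (V p)) : LocNilp (fsup V) := by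
  classical
  intro s hs
  -- the union of the supports
  let T : Set Nat.Primes := ⋃ g ∈ s, {p | g.1 p ≠ 1}
  have hT : T.Finite := hs.biUnion fun g _ => g.2
  -- the projections
  let pr : ∀ p, fsup V →* V p := fun p => (Pi.evalMonoidHom V p).comp (fsup V).subtype
  let C : ∀ p, Subgroup (V p) := fun p => Subgroup.closure (pr p '' s)
  have hfin : ∀ p, Finite (C p) := fun p => hL p _ (hs.image _)
  have hnil : ∀ p, Group.IsNilpotent (C p) := by
    intro p
    have := hfin p
    have hp : Fact (p : ℕ).Prime := ⟨p.2⟩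
    exact ((hV p).to_subgroup (C p)).isNilpotent
  have hmem : ∀ p, ∀ g ∈ Subgroup.closure s, pr p g ∈ C p := by
    intro p g hg
    have h1 : Subgroup.map (pr p) (Subgroup.closure s) = C p := MonoidHom.map_closure _ _
    rw [← h1]
    exact Subgroup.mem_map_of_mem _ hg
  have hone : ∀ p, p ∉ T → ∀ g ∈ Subgroup.closure s, pr p g = 1 := by
    intro p hp g hg
    have h1 : Subgroup.closure s ≤ (pr p).ker := by
      rw [Subgroup.closure_le]
      intro x hx
      by_contra h2
      apply hp
      refine Set.mem_biUnion hx ?_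
      intro h3
      exact h2 h3
    exact h1 hg
  have : Finite T := hT
  let f : Subgroup.closure s →* (∀ p : T, C p) :=
    { toFun := fun g p => ⟨pr p g.1, hmem p g.1 g.2⟩
      map_one' := by
        funext p
        apply Subtype.ext
        exact map_one (pr p)
      map_mul' := by
        intro a b
        funext p
        apply Subtype.ext
        exact map_mul (pr p) a.1 b.1 }
  have hf : Function.Injective f := by
    intro a b hab
    apply Subtype.ext
    apply Subtype.ext
    funext p
    by_cases hp : p ∈ T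
    · have h1 := congrFun hab ⟨p, hp⟩
      exact congrArg Subtype.val h1
    · have h1 := hone p hp a.1 a.2
      have h2 := hone p hp b.1 b.2
      exact h1.trans h2.symm
  have h3 : Group.IsNilpotent f.range := Subgroup.isNilpotent _
  exact Group.nilpotent_of_mulEquiv (MonoidHom.ofInjective hf).symm

theorem t_RPROD : S_RPROD := by
  intro V _ hc hp hl
  exact ⟨fsup V, inferInstance, (fsup V).subtype, fsup_countable V hc, fsup_tors V hp,
    fsup_nilp V hp hl, (fsup V).subtype_injective, fun v hv => ⟨⟨v, hv⟩, rfl⟩⟩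

end Run7.h270.UP
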